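import Pool.Agent.Q324.BD.Main
import Pool.Agent.Q324.Base.Alg

/-!
# MP_307b22_lc: computing the broadcast dimension is NP-hard
-/

namespace Pool.Agent.Results.MP_307b22_lc.BroadcastDimNPHard

open Pool.Agent.NPC Pool.Agent.H692R2 Pool.Agent.Q324.BD Pool.Agent.Q324.Base

/-- Deciding whether the broadcast dimension of `G` is at most `k` is `NP`-hard, also for graphs with
a vertex adjacent to all others; and if the broadcast dimension can be computed in polynomial time
then `P = NP`. -/
theorem result :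
    NPHardP (fun I : FinGraph × ℕ => bdim I.1.graph ≤ I.2) ∧
    NPHardP (fun I : FinGraph × ℕ =>
      (∃ u, ∀ v, v ≠ u → I.1.graph.Adj u v) ∧ bdim I.1.graph ≤ I.2) ∧
    ((∃ A : List Bool → List Bool, PolyTime A ∧ ∀ G : FinGraph, A (bits G) = bits (bdim G.graph)) →
      ∀ L : Set (List Bool), InNP L → InP L) := by
  refine ⟨hard.toHardI.toNPHardP, ?_, ?_⟩
  · have h : HardPr (fun I : FinGraph × ℕ => True) (fun I : FinGraph × ℕ =>
        (∃ u, ∀ v, v ≠ u → I.1.graph.Adj u v) ∧ bdim I.1.graph ≤ I.2) := by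
      refine hard.trans (f := fun I => I) Poly.id (fun _ _ => trivial) (fun I hI => ?_)
      exact ⟨fun h => ⟨hI, h⟩, fun h => h.2⟩
    exact h.toHardI.toNPHardP
  · rintro ⟨A, hA, hA'⟩
    have h1 : Poly (fun G : FinGraph => bdim G.graph) := poly_of_polyTime hA hA'
    exact hard.toHardI.collapse (d := fun I => decide (bdim I.1.graph ≤ I.2))
      (NPC.Poly.decide_le (h1.comp (NPC.Poly.fst NPC.Poly.id)) (NPC.Poly.snd NPC.Poly.id))
      (fun I => by simp)

end Pool.Agent.Results.MP_307b22_lc.BroadcastDimNPHard
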